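import Pool.Agent.Run7.h141.ND1.Iface

namespace Run7.h141.ND1

open Set Filter Topology MeasureTheory R789.C1
open scoped Manifold ContDiff

theorem t_ASM (hGL : S_GL) (hFUB : S_FUB) : S_ASM := by
  intro S _ _ _ _ f hf e he
  refine measure_null_of_locally_null _ fun w hw => ?_
  obtain ⟨p, ⟨hpe, hpn⟩, rfl⟩ := hw
  have he' : chartAt ℂ (f p) ∈ IsManifold.maximalAtlas 𝓘(ℝ, ℂ) ∞ S :=
    IsManifold.chart_mem_maximalAtlas (f p)
  have hwt : e p ∈ e.target := e.map_source hpe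
  have hws : f (e.symm (e p)) ∈ (chartAt ℂ (f p)).source := by
    rw [e.left_inv hpe]
    exact mem_chart_source ℂ (f p)
  obtain ⟨R, G, hR, hwR, hG, hGR, hop, hl⟩ := hFUB S f hf e (chartAt ℂ (f p)) he he' (e p) hwt hws
  set e' := chartAt ℂ (f p) with he'def
  have hd := hGL G R hG hR hop hl
  refine ⟨R ∩ (e '' (e.source ∩ nonDiff f)), ?_, ?_⟩
  · exact inter_mem (mem_nhdsWithin_of_mem_nhds (hR.mem_nhds hwR)) self_mem_nhdsWithin
  · refine measure_mono_null ?_ hd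
    rintro z ⟨hzR, q, ⟨hqe, hqn⟩, rfl⟩
    simp only [mem_compl_iff, mem_ofPred_eq]
    intro hdiff
    apply hqn
    have hdz := hdiff hzR
    -- `f = e'.symm ∘ G ∘ e` near `q`
    obtain ⟨h1, h2, h3⟩ := hGR (e q) hzR
    have hqs : f q ∈ e'.source := by
      rw [e.left_inv hqe] at h2
      exact h2
    have hGq : G (e q) = e' (f q) := by rw [h3, e.left_inv hqe]
    have hevent : f =ᶠ[𝓝 q] (e'.symm ∘ G ∘ e) := by
      have hmem : e.source ∩ e ⁻¹' R ∈ 𝓝 q :=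
        (e.isOpen_inter_preimage hR).mem_nhds ⟨hqe, hzR⟩
      filter_upwards [hmem] with x hx
      obtain ⟨k1, k2, k3⟩ := hGR (e x) hx.2
      simp only [Function.comp_apply]
      rw [k3, e.left_inv hx.1]
      rw [e.left_inv hx.1] at k2
      exact (e'.left_inv k2).symm
    have m1 : MDifferentiableAt 𝓘(ℝ, ℂ) 𝓘(ℝ, ℂ) e q :=
      (contMDiffAt_of_mem_maximalAtlas he hqe).mdifferentiableAt (by simp)
    have m2 : MDifferentiableAt 𝓘(ℝ, ℂ) 𝓘(ℝ, ℂ) G (e q) := hdz.mdifferentiableAt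
    have m3 : MDifferentiableAt 𝓘(ℝ, ℂ) 𝓘(ℝ, ℂ) e'.symm (G (e q)) := by
      refine (contMDiffAt_symm_of_mem_maximalAtlas he' ?_).mdifferentiableAt (by simp)
      rw [hGq]
      exact e'.map_source hqs
    have m : MDifferentiableAt 𝓘(ℝ, ℂ) 𝓘(ℝ, ℂ) (e'.symm ∘ G ∘ e) q :=
      MDifferentiableAt.comp (g := e'.symm) (f := G ∘ e) q m3 (MDifferentiableAt.comp q m2 m1)
    exact m.congr_of_eventuallyEq hevent

end Run7.h141.ND1
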