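import Pool.Agent.Run7.h141.ND1.Iface

/-! Piece CUR of project ND1 (helper141), by helper774. -/

set_option autoImplicit false

namespace Run7.h774.ND1

open Run7.h141.ND1 Set Filter Topology
open scoped ContDiff

/-- `(max 0 u)²` -/
noncomputable def mm (u : ℝ) : ℝ := (max 0 u) ^ 2

lemma mm_deriv (u : ℝ) : HasDerivAt mm (2 * max 0 u) u := by
  rcases lt_trichotomy u 0 with h | h | h
  · have h1 : mm =ᶠ[𝓝 u] fun _ => 0 := by
      filter_upwards [eventually_lt_nhds h] with x hx
      rw [mm, max_eq_left hx.le]; norm_num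
    rw [max_eq_left h.le, mul_zero]
    exact (hasDerivAt_const u (0 : ℝ)).congr_of_eventuallyEq h1
  · subst h
    rw [max_self, mul_zero]
    have h1 : mm =O[𝓝 0] fun x => ‖x - 0‖ ^ 2 := by
      refine Asymptotics.IsBigO.of_bound 1 (Eventually.of_forall fun x => ?_)
      rw [one_mul, sub_zero, norm_pow, norm_norm, mm, norm_pow]
      refine pow_le_pow_left₀ (norm_nonneg _) ?_ 2
      rw [Real.norm_eq_abs, Real.norm_eq_abs, abs_of_nonneg (le_max_left 0 x)]
      exact max_le (abs_nonneg x) (le_abs_self x)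
    have h2 : HasFDerivAt mm (0 : ℝ →L[ℝ] ℝ) 0 := Asymptotics.IsBigO.hasFDerivAt (𝕜 := ℝ) h1 one_lt_two
    have h3 := h2.hasDerivAt
    simpa using h3
  · have h1 : mm =ᶠ[𝓝 u] fun x => x ^ 2 := by
      filter_upwards [eventually_gt_nhds h] with x hx
      rw [mm, max_eq_right hx.le]
    rw [max_eq_right h.le]
    have h2 := hasDerivAt_pow 2 u
    simp only [Nat.cast_ofNat, Nat.add_one_sub_one, pow_one] at h2
    exact h2.congr_of_eventuallyEq h1

lemma mm_cd : ContDiff ℝ 1 mm := by
  rw [contDiff_one_iff_deriv]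
  refine ⟨fun u => (mm_deriv u).differentiableAt, ?_⟩
  have : deriv mm = fun u => 2 * max 0 u := funext fun u => (mm_deriv u).deriv
  rw [this]
  fun_prop

lemma cur_eq (P v : ℂ) (t : ℝ) : cur P v t = P + v * ((Real.cos (2 * Real.pi * t) : ℂ) +
    ((mm (Real.sin (2 * Real.pi * t) + 1 / 2) : ℝ) : ℂ) * Complex.I) := rfl

lemma cur_deriv (P v : ℂ) (t : ℝ) : HasDerivAt (cur P v) (v * (((-Real.sin (2 * Real.pi * t) * (2 * Real.pi) : ℝ) : ℂ) +
    ((2 * max 0 (Real.sin (2 * Real.pi * t) + 1 / 2) * (Real.cos (2 * Real.pi * t) * (2 * Real.pi)) : ℝ) : ℂ) *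
      Complex.I)) t := by
  have h0 : HasDerivAt (fun t : ℝ => 2 * Real.pi * t) (2 * Real.pi) t := by
    simpa using (hasDerivAt_id t).const_mul (2 * Real.pi)
  have h1 : HasDerivAt (fun t : ℝ => Real.cos (2 * Real.pi * t)) (-Real.sin (2 * Real.pi * t) * (2 * Real.pi)) t := h0.cos
  have h2 : HasDerivAt (fun t : ℝ => Real.sin (2 * Real.pi * t) + 1 / 2) (Real.cos (2 * Real.pi * t) * (2 * Real.pi)) t :=
    h0.sin.add_const _
  have h3 : HasDerivAt (fun t : ℝ => mm (Real.sin (2 * Real.pi * t) + 1 / 2))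
      (2 * max 0 (Real.sin (2 * Real.pi * t) + 1 / 2) * (Real.cos (2 * Real.pi * t) * (2 * Real.pi))) t :=
    (mm_deriv _).comp t h2
  exact (((h1.ofReal_comp).add ((h3.ofReal_comp).mul_const Complex.I)).const_mul v).const_add P

lemma cur_cd (P v : ℂ) : ContDiff ℝ 1 (cur P v) := by
  have h0 : ContDiff ℝ 1 (fun t : ℝ => 2 * Real.pi * t) := contDiff_const.mul contDiff_id
  have h1 : ContDiff ℝ 1 (fun t : ℝ => (Real.cos (2 * Real.pi * t) : ℂ)) :=
    Complex.ofRealCLM.contDiff.comp (Real.contDiff_cos.comp h0)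
  have h2 : ContDiff ℝ 1 (fun t : ℝ => ((mm (Real.sin (2 * Real.pi * t) + 1 / 2) : ℝ) : ℂ)) :=
    Complex.ofRealCLM.contDiff.comp (mm_cd.comp ((Real.contDiff_sin.comp h0).add contDiff_const))
  exact contDiff_const.add (contDiff_const.mul (h1.add (h2.mul contDiff_const)))

theorem t_CUR : S_CUR := by
  intro P v hv
  have hπ := Real.pi_pos
  refine ⟨cur_cd P v, ?_, ?_, ?_, ?_, ?_⟩
  · intro t h
    rw [(cur_deriv P v t).deriv] at h
    rcases mul_eq_zero.1 h with h | h
    · exact hv h
    · have h1 := congrArg Complex.re h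
      have h2 := congrArg Complex.im h
      simp only [Complex.add_re, Complex.ofReal_re, Complex.mul_re, Complex.I_re, Complex.ofReal_im, Complex.I_im,
        Complex.zero_re, Complex.add_im, Complex.mul_im, Complex.zero_im] at h1 h2
      have h3 : Real.sin (2 * Real.pi * t) = 0 := by
        have : -Real.sin (2 * Real.pi * t) * (2 * Real.pi) = 0 := by linarith
        rcases mul_eq_zero.1 this with h | h
        · linarith
        · exact absurd h (by positivity)
      rw [h3] at h2
      have h4 : max (0 : ℝ) (0 + 1 / 2) = 1 / 2 := by norm_num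
      rw [h4] at h2
      have h5 : Real.cos (2 * Real.pi * t) = 0 := by
        have : Real.cos (2 * Real.pi * t) * (2 * Real.pi) = 0 := by linarith
        rcases mul_eq_zero.1 this with h | h
        · exact h
        · exact absurd h (by positivity)
      have h6 := Real.sin_sq_add_cos_sq (2 * Real.pi * t)
      rw [h3, h5] at h6
      norm_num at h6
  · intro t
    have h1 : 2 * Real.pi * (t + 1) = 2 * Real.pi * t + 2 * Real.pi := by ring
    rw [cur_eq, cur_eq, h1, Real.cos_add_two_pi, Real.sin_add_two_pi]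
  · intro s hs t ht h
    rw [cur_eq, cur_eq] at h
    have h0 := mul_left_cancel₀ hv (add_left_cancel h)
    have h1 := congrArg Complex.re h0
    have h2 := congrArg Complex.im h0
    simp only [Complex.add_re, Complex.ofReal_re, Complex.mul_re, Complex.I_re, Complex.ofReal_im, Complex.I_im,
      Complex.add_im, Complex.mul_im] at h1 h2
    have hc : Real.cos (2 * Real.pi * s) = Real.cos (2 * Real.pi * t) := by linarith
    have hm : mm (Real.sin (2 * Real.pi * s) + 1 / 2) = mm (Real.sin (2 * Real.pi * t) + 1 / 2) := by linarith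
    have hmax : max 0 (Real.sin (2 * Real.pi * s) + 1 / 2) = max 0 (Real.sin (2 * Real.pi * t) + 1 / 2) :=
      (pow_left_inj₀ (le_max_left _ _) (le_max_left _ _) two_ne_zero).1 hm
    have hsq : Real.sin (2 * Real.pi * s) ^ 2 = Real.sin (2 * Real.pi * t) ^ 2 := by
      have a1 := Real.sin_sq_add_cos_sq (2 * Real.pi * s)
      have a2 := Real.sin_sq_add_cos_sq (2 * Real.pi * t)
      rw [hc] at a1
      linarith
    have hsin : Real.sin (2 * Real.pi * s) = Real.sin (2 * Real.pi * t) := by
      rcases sq_eq_sq_iff_eq_or_eq_neg.1 hsq with h | h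
      · exact h
      · rw [h] at hmax
        set σ := Real.sin (2 * Real.pi * t) with hσ
        have hσ0 : σ = 0 := by
          rcases lt_trichotomy σ 0 with h' | h' | h'
          · exfalso
            have b1 : max 0 (-σ + 1 / 2) = -σ + 1 / 2 := max_eq_right (by linarith)
            rw [b1] at hmax
            rcases max_choice 0 (σ + 1 / 2) with b2 | b2 <;> rw [b2] at hmax <;> linarith
          · exact h'
          · exfalso
            have b1 : max 0 (σ + 1 / 2) = σ + 1 / 2 := max_eq_right (by linarith)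
            rw [b1] at hmax
            rcases max_choice 0 (-σ + 1 / 2) with b2 | b2 <;> rw [b2] at hmax <;> linarith
        rw [h, hσ0, neg_zero]
    have hang := Real.Angle.cos_sin_inj hc hsin
    obtain ⟨k, hk⟩ := Real.Angle.angle_eq_iff_two_pi_dvd_sub.1 hang
    have hk' : s - t = k := by
      have : 2 * Real.pi * (s - t) = 2 * Real.pi * k := by rw [← hk]; ring
      exact mul_left_cancel₀ (by positivity) this
    have hk1 : (k : ℝ) < 1 := by rw [← hk']; linarith [hs.2, ht.1]
    have hk2 : (-1 : ℝ) < k := by rw [← hk']; linarith [hs.1, ht.2]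
    have hk3 : k = 0 := by
      have c1 : k < 1 := by exact_mod_cast hk1
      have c2 : -1 < k := by exact_mod_cast hk2
      omega
    rw [hk3] at hk'
    push_cast at hk'
    linarith
  · intro t
    rw [cur_eq, add_sub_cancel_left, norm_mul, mul_comm]
    refine mul_le_mul_of_nonneg_right ?_ (norm_nonneg _)
    rw [Complex.norm_eq_sqrt_sq_add_sq]
    simp only [Complex.add_re, Complex.ofReal_re, Complex.mul_re, Complex.I_re, Complex.ofReal_im, Complex.I_im,
      Complex.add_im, Complex.mul_im]
    rw [Real.sqrt_le_left (by norm_num)]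
    have h1 := Real.sin_le_one (2 * Real.pi * t)
    have h2 : max 0 (Real.sin (2 * Real.pi * t) + 1 / 2) ≤ 3 / 2 := max_le (by norm_num) (by linarith)
    have h3 : 0 ≤ max 0 (Real.sin (2 * Real.pi * t) + 1 / 2) := le_max_left _ _
    have h4 : mm (Real.sin (2 * Real.pi * t) + 1 / 2) ≤ 9 / 4 := by
      unfold mm; nlinarith
    have h5 : 0 ≤ mm (Real.sin (2 * Real.pi * t) + 1 / 2) := by unfold mm; positivity
    have h6 := Real.cos_sq_le_one (2 * Real.pi * t)
    nlinarith
  · intro x hx
    obtain ⟨hx1, hx2⟩ := abs_le.1 hx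
    refine ⟨-Real.arccos x / (2 * Real.pi), ?_⟩
    have h1 : 2 * Real.pi * (-Real.arccos x / (2 * Real.pi)) = -Real.arccos x := by
      field_simp
    rw [cur_eq, h1, Real.cos_neg, Real.sin_neg, Real.cos_arccos (by linarith) (by linarith), Real.sin_arccos]
    have h2 : (1 / 2 : ℝ) ≤ Real.sqrt (1 - x ^ 2) := by
      refine Real.le_sqrt_of_sq_le ?_
      nlinarith
    have h3 : mm (-Real.sqrt (1 - x ^ 2) + 1 / 2) = 0 := by
      unfold mm
      rw [max_eq_left (by linarith)]; norm_num
    rw [h3]
    push_cast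
    ring

end Run7.h774.ND1
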