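import Pool.Agent.Run7.h141.ND1.Iface

/-!
Project ND1 (helper141, MP_bd3523_gt Q2), piece DEN.
-/

set_option autoImplicit false

namespace Run7.h824.ND1

open Set Filter Topology MeasureTheory Run7.h141.ND1
open scoped Pointwise

theorem den1 (F : Set ℝ) (δ : ℝ) (hF : IsClosed F) (hδ : 0 < δ) :
    ∀ᵐ t : ℝ, t ∈ F → ∃ ρ : ℝ, 0 < ρ ∧ ∀ r : ℝ, 0 < r → r < ρ → ∀ x : ℝ, |x| ≤ 2 * r →
      ∃ x' : ℝ, |x' - x| ≤ δ * r ∧ t + x' ∈ F := by
  have h := (ae_restrict_iff' hF.measurableSet).1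
    (Besicovitch.ae_tendsto_measure_inter_div (volume : Measure ℝ) F)
  filter_upwards [h] with t ht htF
  set d := min δ 1 with hd
  have hd0 : 0 < d := lt_min hδ one_pos
  have hd1 : d ≤ 1 := min_le_right _ _
  have hdδ : d ≤ δ := min_le_left _ _
  have hlt : ENNReal.ofReal (1 - d / 3) < 1 := by
    rw [ENNReal.ofReal_lt_one]
    linarith
  have hev := (ht htF).eventually (lt_mem_nhds hlt)
  rw [eventually_nhdsWithin_iff, Metric.eventually_nhds_iff] at hev
  obtain ⟨ρ0, hρ0, hball⟩ := hev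
  refine ⟨ρ0 / 3, by positivity, fun r hr hrρ x hx => ?_⟩
  by_contra hcon
  push Not at hcon
  have h3 : 0 < 3 * r := by positivity
  have h4 := hball (y := 3 * r) (by
    rw [Real.dist_eq, sub_zero, abs_of_pos h3]
    linarith) h3
  refine absurd h4 (not_lt.2 ?_)
  refine ENNReal.div_le_of_le_mul ?_
  have hsub : F ∩ Metric.closedBall t (3 * r) ⊆
      Metric.closedBall t (3 * r) \ Metric.closedBall (t + x) (d * r) := by
    rintro y ⟨hy1, hy2⟩
    refine ⟨hy2, fun hy3 => ?_⟩
    rw [Metric.mem_closedBall, Real.dist_eq] at hy3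
    have h5 : |y - t - x| ≤ δ * r := by
      have h6 : y - t - x = y - (t + x) := by ring
      rw [h6]
      exact hy3.trans (mul_le_mul_of_nonneg_right hdδ hr.le)
    have h7 := hcon (y - t) h5
    rw [add_sub_cancel] at h7
    exact h7 hy1
  have hsub2 : Metric.closedBall (t + x) (d * r) ⊆ Metric.closedBall t (3 * r) := by
    refine Metric.closedBall_subset_closedBall' ?_
    rw [Real.dist_eq, add_sub_cancel_left]
    nlinarith
  refine (measure_mono hsub).trans ?_
  rw [measure_sdiff hsub2 measurableSet_closedBall.nullMeasurableSet (by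
    rw [Real.volume_closedBall]
    exact ENNReal.ofReal_ne_top), Real.volume_closedBall, Real.volume_closedBall,
    ← ENNReal.ofReal_mul (by linarith), ← ENNReal.ofReal_sub _ (by positivity)]
  refine ENNReal.ofReal_le_ofReal (le_of_eq ?_)
  ring

theorem meas (E : Set ℂ) (v : ℂ) (δ : ℝ) (hE : IsClosed E) :
    MeasurableSet {z : ℂ | z ∈ E → Dense E v z δ} := by
  have h1 : {z : ℂ | z ∈ E → Dense E v z δ} = Eᶜ ∪ ⋃ m : ℕ, ⋂ (r : ℝ) (_ : 0 < r)
      (_ : r < 1 / ((m : ℝ) + 1)) (x : ℝ) (_ : |x| ≤ 2 * r),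
      {z : ℂ | ∃ x' : ℝ, |x' - x| ≤ δ * r ∧ z + x' * v ∈ E} := by
    ext z
    simp only [mem_union, mem_compl_iff, mem_iUnion, mem_iInter]
    constructor
    · intro h
      by_cases hz : z ∈ E
      · right
        obtain ⟨ρ, hρ, h2⟩ := h hz
        obtain ⟨m, hm⟩ := exists_nat_one_div_lt hρ
        exact ⟨m, fun r hr hrm x hx => h2 r hr (hrm.trans hm) x hx⟩
      · exact Or.inl hz
    · rintro (h | ⟨m, h⟩) hz
      · exact absurd hz h
      · exact ⟨1 / ((m : ℝ) + 1), by positivity, fun r hr hrm x hx => h r hr hrm x hx⟩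
  rw [h1]
  refine hE.measurableSet.compl.union (MeasurableSet.iUnion fun m => IsClosed.measurableSet ?_)
  refine isClosed_iInter fun r => isClosed_iInter fun _ => isClosed_iInter fun _ =>
    isClosed_iInter fun x => isClosed_iInter fun _ => ?_
  have hK : IsCompact ((fun x' : ℝ => -((x' : ℂ) * v)) '' Metric.closedBall x (δ * r)) :=
    (isCompact_closedBall x (δ * r)).image (by fun_prop)
  have h2 := hE.add_right_of_isCompact hK
  convert h2 using 1
  ext z
  rw [Set.mem_add]
  constructor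
  · rintro ⟨x', hx', hz⟩
    refine ⟨z + x' * v, hz, -((x' : ℂ) * v), ⟨x', ?_, rfl⟩, by ring⟩
    rw [Metric.mem_closedBall, Real.dist_eq]
    exact hx'
  · rintro ⟨a, ha, b, ⟨x', hx', rfl⟩, rfl⟩
    rw [Metric.mem_closedBall, Real.dist_eq] at hx'
    refine ⟨x', hx', ?_⟩
    have h3 : a + -((x' : ℂ) * v) + x' * v = a := by ring
    simp only [h3]
    exact ha

theorem t_DEN : S_DEN := by
  intro E v δ hE hδ
  have hm := meas E v δ hE
  have key := ae_mem_of_ae_add_linearMap_mem (LinearMap.toSpanSingleton ℝ ℂ v)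
    (volume : Measure ℝ) (volume : Measure ℂ) hm ?_
  · exact key
  · intro y
    have hF : IsClosed {t : ℝ | y + t * v ∈ E} := by
      have hc : Continuous fun t : ℝ => y + (t : ℂ) * v := by fun_prop
      exact hE.preimage hc
    filter_upwards [den1 _ δ hF hδ] with t ht hz
    rw [LinearMap.toSpanSingleton_apply, Complex.real_smul] at hz ⊢
    obtain ⟨ρ, hρ, h2⟩ := ht hz
    refine ⟨ρ, hρ, fun r hr hrρ x hx => ?_⟩
    obtain ⟨x', hx', h3⟩ := h2 r hr hrρ x hx
    refine ⟨x', hx', ?_⟩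
    have h4 : y + ((t + x' : ℝ) : ℂ) * v ∈ E := h3
    have h5 : y + ((t + x' : ℝ) : ℂ) * v = y + (t : ℂ) * v + (x' : ℂ) * v := by
      push_cast
      ring
    rw [h5] at h4
    exact h4

end Run7.h824.ND1
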