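import Pool.Agent.Run7.h141.ND1.Iface

/-!
# Piece FUB of project ND1 of helper141 (MP_bd3523_gt, Q2)

The local statement without the differentiability theorem.
-/

set_option autoImplicit false

namespace Run7.h648.ND1

open Set Filter Topology MeasureTheory R789.C1 Run7.h141.ND1
open scoped Manifold ContDiff

/-- cut to a square -/
noncomputable def clamp (ρ : ℝ) (z : ℂ) : ℂ :=
  ((max (-ρ) (min ρ z.re) : ℝ) : ℂ) + ((max (-ρ) (min ρ z.im) : ℝ) : ℂ) * Complex.I

theorem clamp_re (ρ : ℝ) (z : ℂ) : (clamp ρ z).re = max (-ρ) (min ρ z.re) := by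
  unfold clamp
  simp only [Complex.add_re, Complex.ofReal_re, Complex.mul_re, Complex.ofReal_im, Complex.I_re,
    Complex.I_im, mul_zero, zero_mul, sub_zero, add_zero]

theorem clamp_im (ρ : ℝ) (z : ℂ) : (clamp ρ z).im = max (-ρ) (min ρ z.im) := by
  unfold clamp
  simp only [Complex.add_im, Complex.ofReal_re, Complex.mul_im, Complex.ofReal_im, Complex.I_re,
    Complex.I_im, mul_zero, mul_one, zero_add, add_zero]

theorem clamp_cont (ρ : ℝ) : Continuous (clamp ρ) := by
  unfold clamp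
  have h1 : Continuous fun z : ℂ => max (-ρ) (min ρ z.re) :=
    continuous_const.max (continuous_const.min Complex.continuous_re)
  have h2 : Continuous fun z : ℂ => max (-ρ) (min ρ z.im) :=
    continuous_const.max (continuous_const.min Complex.continuous_im)
  exact (Complex.continuous_ofReal.comp h1).add
    ((Complex.continuous_ofReal.comp h2).mul continuous_const)

theorem clamp_norm {ρ : ℝ} (hρ : 0 < ρ) (z : ℂ) : ‖clamp ρ z‖ ≤ 2 * ρ := by
  refine (Complex.norm_le_abs_re_add_abs_im _).trans ?_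
  have h1 : |(clamp ρ z).re| ≤ ρ := by
    rw [clamp_re]
    exact abs_le.2 ⟨le_max_left _ _, max_le (by linarith) (min_le_left _ _)⟩
  have h2 : |(clamp ρ z).im| ≤ ρ := by
    rw [clamp_im]
    exact abs_le.2 ⟨le_max_left _ _, max_le (by linarith) (min_le_left _ _)⟩
  linarith

theorem clamp_eq {ρ : ℝ} {z : ℂ} (h : ‖z‖ < ρ) : clamp ρ z = z := by
  have h1 := (Complex.abs_re_le_norm z).trans_lt h
  have h2 := (Complex.abs_im_le_norm z).trans_lt h
  rw [abs_lt] at h1 h2
  apply Complex.ext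
  · rw [clamp_re, min_eq_right h1.2.le, max_eq_right h1.1.le]
  · rw [clamp_im, min_eq_right h2.2.le, max_eq_right h2.1.le]

/-- affine changes of variable preserve null sets -/
theorem quasi (c t₀ : ℝ) (hc : c ≠ 0) :
    Measure.QuasiMeasurePreserving (fun t : ℝ => c * (t - t₀)) volume volume := by
  have h1 : Measure.QuasiMeasurePreserving (fun t : ℝ => t - t₀) volume volume :=
    (measurePreserving_sub_right volume t₀).quasiMeasurePreserving
  have h2 : Measure.QuasiMeasurePreserving (fun t : ℝ => c * t) volume volume := by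
    refine ⟨measurable_const_mul _, ?_⟩
    rw [Real.map_volume_mul_left hc]
    exact Measure.smul_absolutelyContinuous
  exact h2.comp h1

theorem line_ae (hL : S_LINE) {S : Type} [TopologicalSpace S] [T2Space S] [ChartedSpace ℂ S]
    [IsManifold 𝓘(ℝ, ℂ) ∞ S] (f : S ≃ₜ S) (hf : Homeo1 f) (e e' : OpenPartialHomeomorph S ℂ)
    (he : e ∈ IsManifold.maximalAtlas 𝓘(ℝ, ℂ) ∞ S) (he' : e' ∈ IsManifold.maximalAtlas 𝓘(ℝ, ℂ) ∞ S)
    (w : ℂ) (ρ : ℝ) (hρ : 0 < ρ) (hball : Metric.closedBall w (40 * ρ) ⊆ e.target)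
    (hsrc : ∀ z ∈ Metric.ball w ρ, f (e.symm z) ∈ e'.source) (G : ℂ → ℂ) (hG : Continuous G)
    (hGe : ∀ z ∈ Metric.ball w ρ, G z = e' (f (e.symm z))) (v₀ : ℂ) (hv : ‖v₀‖ = 1) :
    ∀ᵐ z : ℂ, z ∈ Metric.ball w ρ → LineDifferentiableAt ℝ G z v₀ := by
  have hv00 : v₀ ≠ 0 := fun h => by rw [h, norm_zero] at hv; exact zero_ne_one hv
  let L : ℝ →L[ℝ] ℂ := ContinuousLinearMap.smulRight (1 : ℝ →L[ℝ] ℝ) v₀
  have hLt : ∀ t : ℝ, L t = (t : ℂ) * v₀ := fun t => by
    simp [L]
  have hms : MeasurableSet {z : ℂ | z ∈ Metric.ball w ρ → LineDifferentiableAt ℝ G z v₀} := by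
    have h0 : {z : ℂ | z ∈ Metric.ball w ρ → LineDifferentiableAt ℝ G z v₀} =
        (Metric.ball w ρ)ᶜ ∪ {z | LineDifferentiableAt ℝ G z v₀} := by
      ext z
      exact imp_iff_not_or
    rw [h0]
    exact measurableSet_ball.compl.union (measurableSet_lineDifferentiableAt hG)
  suffices A : ∀ p : ℂ, ∀ᵐ t : ℝ, (p + L t) ∈ {z : ℂ | z ∈ Metric.ball w ρ →
      LineDifferentiableAt ℝ G z v₀} from
    ae_mem_of_ae_add_linearMap_mem L.toLinearMap volume volume hms A
  intro p
  by_cases hp : ∃ t₀ : ℝ, p + t₀ * v₀ ∈ Metric.ball w ρ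
  · obtain ⟨t₀, ht₀⟩ := hp
    have h8 : (8 * ρ) ≠ 0 := by positivity
    have h8c : ((8 * ρ : ℝ) : ℂ) ≠ 0 := Complex.ofReal_ne_zero.2 h8
    have hvn : ‖((8 * ρ : ℝ) : ℂ) * v₀‖ = 8 * ρ := by
      rw [norm_mul, hv, mul_one, Complex.norm_real, Real.norm_eq_abs, abs_of_pos (by positivity)]
    have h1 := hL S f hf e e' he he' (p + t₀ * v₀) (((8 * ρ : ℝ) : ℂ) * v₀)
      (mul_ne_zero h8c hv00) (by
        refine Subset.trans ?_ hball
        rw [hvn]
        refine Metric.closedBall_subset_closedBall' ?_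
        rw [Metric.mem_ball] at ht₀
        linarith)
    have h2 := (quasi (8 * ρ)⁻¹ t₀ (inv_ne_zero h8)).ae h1
    filter_upwards [h2] with t ht
    rw [hLt]
    intro hmem
    have key : ∀ s : ℝ, p + t₀ * v₀ + (((8 * ρ)⁻¹ * (s - t₀) : ℝ) : ℂ) *
        (((8 * ρ : ℝ) : ℂ) * v₀) = p + s * v₀ := by
      intro s
      have h3 : (((8 * ρ)⁻¹ * (s - t₀) : ℝ) : ℂ) * ((8 * ρ : ℝ) : ℂ) = (s : ℂ) - t₀ := by
        rw [← Complex.ofReal_mul, ← Complex.ofReal_sub]
        congr 1
        field_simp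
      rw [← mul_assoc, h3]
      ring
    have hlt : |(8 * ρ)⁻¹ * (t - t₀)| < 1 / 2 := by
      have h3 : ‖((t : ℂ) - t₀) * v₀‖ < 2 * ρ := by
        have h4 : ((t : ℂ) - t₀) * v₀ = (p + t * v₀ - w) - (p + t₀ * v₀ - w) := by ring
        rw [h4]
        rw [Metric.mem_ball, dist_eq_norm] at hmem ht₀
        exact (norm_sub_le _ _).trans_lt (by linarith)
      rw [norm_mul, hv, mul_one, ← Complex.ofReal_sub, Complex.norm_real, Real.norm_eq_abs] at h3
      rw [abs_mul, abs_of_pos (by positivity : (0 : ℝ) < (8 * ρ)⁻¹), inv_mul_lt_iff₀ (by positivity)]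
      linarith
    have h5 := ht hlt (by rw [key t]; exact hsrc _ hmem)
    -- the line derivative
    have h6 : DifferentiableAt ℝ (fun s : ℝ => (8 * ρ)⁻¹ * (t + s - t₀)) 0 := by
      fun_prop
    have h7 : DifferentiableAt ℝ ((fun y : ℝ => e' (f (e.symm (p + t₀ * v₀ +
        y * (((8 * ρ : ℝ) : ℂ) * v₀))))) ∘ (fun s : ℝ => (8 * ρ)⁻¹ * (t + s - t₀))) 0 := by
      refine DifferentiableAt.comp (0 : ℝ) ?_ h6
      simpa using h5
    unfold LineDifferentiableAt
    refine h7.congr_of_eventuallyEq ?_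
    have hcont : Continuous fun s : ℝ => p + t * v₀ + s • v₀ := by fun_prop
    have h9 : ∀ᶠ s : ℝ in 𝓝 0, p + t * v₀ + s • v₀ ∈ Metric.ball w ρ := by
      refine hcont.continuousAt.eventually_mem ?_
      simpa using Metric.isOpen_ball.mem_nhds hmem
    filter_upwards [h9] with s hs
    rw [hGe _ hs]
    simp only [Function.comp_apply]
    rw [key (t + s)]
    congr 3
    rw [Complex.real_smul, Complex.ofReal_add]
    ring
  · push Not at hp
    refine Eventually.of_forall fun t => ?_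
    change p + L t ∈ Metric.ball w ρ → _
    rw [hLt]
    intro h
    exact absurd h (hp t)

/-- the piece FUB -/
theorem t_FUB (hL : S_LINE) : S_FUB := by
  intro S _ _ _ _ f hf e e' he he' w hw hfw
  have hA : IsOpen (e.target ∩ e.symm ⁻¹' (f ⁻¹' e'.source)) := by
    have := e.symm.isOpen_inter_preimage (e'.open_source.preimage f.continuous)
    simpa using this
  obtain ⟨r, hr, hrA⟩ := Metric.nhds_basis_closedBall.mem_iff.1 (hA.mem_nhds ⟨hw, hfw⟩)
  obtain ⟨ρ, hρ, hρr⟩ : ∃ ρ : ℝ, 0 < ρ ∧ 40 * ρ = r := ⟨r / 40, by positivity, by ring⟩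
  subst hρr
  have hcl : ∀ z : ℂ, w + clamp ρ (z - w) ∈ e.target ∩ e.symm ⁻¹' (f ⁻¹' e'.source) := by
    intro z
    refine hrA ?_
    rw [Metric.mem_closedBall, dist_eq_norm, add_sub_cancel_left]
    exact (clamp_norm hρ _).trans (by linarith)
  have hcc : Continuous fun z : ℂ => w + clamp ρ (z - w) :=
    continuous_const.add ((clamp_cont ρ).comp (continuous_id.sub continuous_const))
  have hG : Continuous fun z : ℂ => e' (f (e.symm (w + clamp ρ (z - w)))) := by
    have h1 : Continuous fun z : ℂ => e.symm (w + clamp ρ (z - w)) :=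
      e.symm.continuousOn.comp_continuous hcc fun z => (hcl z).1
    exact e'.continuousOn.comp_continuous (f.continuous.comp h1) fun z => (hcl z).2
  have hsub : Metric.ball w ρ ⊆ e.target ∩ e.symm ⁻¹' (f ⁻¹' e'.source) := by
    refine Subset.trans ?_ hrA
    exact Metric.ball_subset_closedBall.trans (Metric.closedBall_subset_closedBall (by linarith))
  have hGe : ∀ z ∈ Metric.ball w ρ, e' (f (e.symm (w + clamp ρ (z - w)))) =
      e' (f (e.symm z)) := by
    intro z hz
    rw [Metric.mem_ball, dist_eq_norm] at hz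
    rw [clamp_eq hz, add_sub_cancel]
  refine ⟨Metric.ball w ρ, fun z => e' (f (e.symm (w + clamp ρ (z - w)))), Metric.isOpen_ball,
    Metric.mem_ball_self hρ, hG, fun z hz => ⟨(hsub hz).1, (hsub hz).2, hGe z hz⟩, ?_, ?_⟩
  · intro V hV hVo
    have h1 : (fun z => e' (f (e.symm (w + clamp ρ (z - w))))) '' V =
        e' '' (f '' (e.symm '' V)) := by
      rw [image_image, image_image]
      exact image_congr fun z hz => hGe z (hV hz)
    rw [h1]
    refine e'.isOpen_image_of_subset_source (f.isOpenMap _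
      (e.symm.isOpen_image_of_subset_source hVo fun z hz => (hsub (hV hz)).1)) ?_
    rintro _ ⟨_, ⟨z, hz, rfl⟩, rfl⟩
    exact (hsub (hV hz)).2
  · have hb : Metric.closedBall w (40 * ρ) ⊆ e.target := fun z hz => (hrA hz).1
    have hs : ∀ z ∈ Metric.ball w ρ, f (e.symm z) ∈ e'.source := fun z hz => (hsub hz).2
    have ha := line_ae hL f hf e e' he he' w ρ hρ hb hs _ hG hGe 1 norm_one
    have hb' := line_ae hL f hf e e' he he' w ρ hρ hb hs _ hG hGe Complex.I Complex.norm_I
    filter_upwards [ha, hb'] with z h1 h2 hz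
    exact ⟨h1 hz, h2 hz⟩

end Run7.h648.ND1
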