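import Mathlib
import Pool.Agent.R789.C1Curve

/-!
Interface for MP_bd3523_gt, Q2 (answer: no): the non-differentiable set of every element of `Homeo¹(S)` is a
null set.  Every horizontal or vertical segment is mapped to a `C¹` arc, so (Lebesgue, monotone functions) the
partial derivatives exist almost everywhere, and an open map of the plane with partial derivatives almost
everywhere is differentiable almost everywhere (Gehring and Lehto).
-/

namespace Run7.h141.ND1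

open Set Filter Topology MeasureTheory R789.C1
open scoped Manifold ContDiff

/-- a closed curve which contains a straight segment -/
noncomputable def cur (P v : ℂ) (t : ℝ) : ℂ :=
  P + v * ((Real.cos (2 * Real.pi * t) : ℂ) +
    (((max 0 (Real.sin (2 * Real.pi * t) + 1 / 2)) ^ 2 : ℝ) : ℂ) * Complex.I)

/-- PIECE CUR (60 lines).  `u ↦ (max 0 u)²` has the derivative `2 max 0 u`.  The derivative of `cur` is
`2π v (- sin + 2 max (0, sin + 1/2) cos · i)`; it vanishes only if `sin = 0` and `cos = 0`.  Injective: equal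
cosines and `s, t ∈ [0, 1)` give `t = s` or `t = 1 - s`; then the sines are `σ` and `-σ`, and
`(max 0 (σ + 1/2))² = (max 0 (-σ + 1/2))²` only if `σ = 0`.  For `|x| ≤ 1/2` take `2πt = 2π - arccos x`, so that
`sin ≤ -1/2`. -/
def S_CUR : Prop :=
  ∀ P v : ℂ, v ≠ 0 → ContDiff ℝ 1 (cur P v) ∧ (∀ t, deriv (cur P v) t ≠ 0) ∧
    (∀ t, cur P v (t + 1) = cur P v t) ∧ InjOn (cur P v) (Ico 0 1) ∧
    (∀ t, ‖cur P v t - P‖ ≤ 3 * ‖v‖) ∧ (∀ x : ℝ, |x| ≤ 1 / 2 → P + x * v ∈ range (cur P v))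

/-- PIECE TRA (40 lines).  A closed `C¹` curve in the target of a smooth chart gives a `C¹` curve of the surface:
`e.symm ∘ γ` (`contMDiffOn_symm_of_mem_maximalAtlas`; the derivative: `γ = e ∘ (e.symm ∘ γ)`, so
`mfderiv (e.symm ∘ γ) t = 0` would give `deriv γ t = 0`). -/
def S_TRA : Prop :=
  ∀ (S : Type) [TopologicalSpace S] [ChartedSpace ℂ S] [IsManifold 𝓘(ℝ, ℂ) ∞ S]
    (e : OpenPartialHomeomorph S ℂ), e ∈ IsManifold.maximalAtlas 𝓘(ℝ, ℂ) ∞ S →
    ∀ γ : ℝ → ℂ, ContDiff ℝ 1 γ → (∀ t, deriv γ t ≠ 0) → (∀ t, γ (t + 1) = γ t) →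
      InjOn γ (Ico 0 1) → range γ ⊆ e.target → IsC1Curve (e.symm '' range γ)

/-- PIECE MON (80 lines).  A continuous injective map of an interval into a Jordan curve is locally `γ ∘ s`
with `s` monotone or antitone.  Proof: `c x0 = γ s0`.  By `R789.C1.inj_of_injOn` `γ` is injective on
`[s0 - 1/4, s0 + 1/4]`, and `c x0` is not in the compact (closed) set `γ '' [s0 + 1/4, s0 + 3/4]`; so `c x` is in
`γ '' (s0 - 1/4, s0 + 1/4)` for `x` near `x0` (every point of the range is `γ t`, `t ∈ [s0 - 1/4, s0 + 3/4)`).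
`γ` on the compact `[s0 - 1/4, s0 + 1/4]` is a homeomorphism onto its image, so `s x` := the inverse of `c x` is
continuous and injective near `x0`, hence strictly monotone or antitone on an interval
(`ContinuousOn.strictMonoOn_of_injOn_Ioo'` or the `Icc` version). -/
def S_MON : Prop :=
  ∀ (X : Type) [TopologicalSpace X] [T2Space X] (γ c : ℝ → X) (a b : ℝ), Continuous γ →
    (∀ t, γ (t + 1) = γ t) → InjOn γ (Ico 0 1) → ContinuousOn c (Ioo a b) → InjOn c (Ioo a b) →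
    (∀ x ∈ Ioo a b, c x ∈ range γ) → ∀ x₀ ∈ Ioo a b, ∃ δ : ℝ, 0 < δ ∧ ∃ s : ℝ → ℝ,
      (MonotoneOn s (Ioo (x₀ - δ) (x₀ + δ)) ∨ AntitoneOn s (Ioo (x₀ - δ) (x₀ + δ))) ∧
      ContinuousOn s (Ioo (x₀ - δ) (x₀ + δ)) ∧ ∀ x ∈ Ioo (x₀ - δ) (x₀ + δ), c x = γ (s x)

/-- PIECE LINE (80 lines, from S_CUR, S_TRA, S_MON): the coordinate expression of `f` is differentiable at almost
all points of a segment.  Proof: `Γ = e.symm '' range (cur P v)` is a `C¹` curve, so `f '' Γ = range γ` as in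
`IsC1Curve`; `c x = f (e.symm (P + x v))` is continuous and injective on `(-1/2, 1/2)` with values in `range γ`;
locally `c = γ ∘ s` with `s` monotone or antitone, so `s` is differentiable a.e.
(`MonotoneOn.ae_differentiableWithinAt`), and `e' ∘ γ` is differentiable at `s x` if `γ (s x) ∈ e'.source`
(`contMDiffAt_of_mem_maximalAtlas`).  A locally null set is null (`measure_null_of_locally_null`). -/
def S_LINE : Prop :=
  ∀ (S : Type) [TopologicalSpace S] [T2Space S] [ChartedSpace ℂ S] [IsManifold 𝓘(ℝ, ℂ) ∞ S]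
    (f : S ≃ₜ S), Homeo1 f → ∀ e e' : OpenPartialHomeomorph S ℂ,
    e ∈ IsManifold.maximalAtlas 𝓘(ℝ, ℂ) ∞ S → e' ∈ IsManifold.maximalAtlas 𝓘(ℝ, ℂ) ∞ S →
    ∀ P v : ℂ, v ≠ 0 → Metric.closedBall P (3 * ‖v‖) ⊆ e.target →
    ∀ᵐ x : ℝ, |x| < 1 / 2 → f (e.symm (P + x * v)) ∈ e'.source →
      DifferentiableAt ℝ (fun y : ℝ => e' (f (e.symm (P + y * v)))) x

/-- `E` has only small gaps near `z` in the direction `v`. -/
def Dense (E : Set ℂ) (v z : ℂ) (δ : ℝ) : Prop :=
  ∃ ρ : ℝ, 0 < ρ ∧ ∀ r : ℝ, 0 < r → r < ρ → ∀ x : ℝ, |x| ≤ 2 * r →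
    ∃ x' : ℝ, |x' - x| ≤ δ * r ∧ z + x' * v ∈ E

/-- PIECE DEN (80 lines).  Lebesgue density on lines.  Proof: for fixed `ρ` the set of the `z` with the property is
closed (`E` closed, `x'` in a compact interval), so the set in question is measurable (`ρ = 1 / (m + 1)`), and by
`ae_mem_of_ae_add_linearMap_mem` (Fubini along the lines of direction `v`, see `Mathlib.Analysis.Calculus.Rademacher`)
it suffices to treat a closed set `F = {t | z + t v ∈ E}` of `ℝ`: a.e. `t ∈ F` is a density point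
(`Besicovitch.ae_tendsto_measure_inter_div`), and if `[t + x - δ r, t + x + δ r]` misses `F` (may assume `δ ≤ 1`)
then `|F ∩ [t - 3 r, t + 3 r]| ≤ (1 - δ / 3) 6 r`. -/
def S_DEN : Prop :=
  ∀ (E : Set ℂ) (v : ℂ) (δ : ℝ), IsClosed E → 0 < δ → ∀ᵐ z : ℂ, z ∈ E → Dense E v z δ

/-- PIECE GLA (100 lines).  The geometric lemma of Gehring and Lehto.  Proof: let `z = z₀ + x + i y` be near `z₀`,
`r = ‖z - z₀‖`.  Points `z₀ + x₁, z₀ + x₂, z₀ + i y₁, z₀ + i y₂` of `E` with `x₁ ∈ [x - 3 δ r, x - δ r]`,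
`x₂ ∈ [x + δ r, x + 3 δ r]` and the same for `y`.  At a point `ζ = z₀ + ξ + i η` of the boundary of the rectangle
`[x₁, x₂] × [y₁, y₂]`: `|G ζ - G z₀ - ξ p - η q| ≤ ε (|ξ| + |η|)` (go from `z₀` to `z₀ + ξ`, `ξ = x_j`, and then
vertically from this point of `E`, or first vertically to `z₀ + i y_j ∈ E`).  With
`A = G z₀ + x p + y q` this is `|G ζ - A| ≤ ε (|ξ| + |η|) + 3 δ r (|p| + |q|) ≤ 11 ε r`; as `G` is open, `|G - A|`
takes its maximum over the compact rectangle on the boundary (an interior maximum point `w` has an open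
neighbourhood mapped to an open set containing points farther from `A` than `G w`). -/
def S_GLA : Prop :=
  ∀ (G : ℂ → ℂ) (R E : Set ℂ) (z₀ p q : ℂ) (ε r₀ δ : ℝ), Continuous G → IsOpen R →
    (∀ V ⊆ R, IsOpen V → IsOpen (G '' V)) → z₀ ∈ R → z₀ ∈ E → 0 < ε → 0 < r₀ → 0 < δ → δ ≤ 1 / 4 →
    δ * (‖p‖ + ‖q‖) ≤ ε →
    (∀ z ∈ E, ∀ h : ℝ, |h| ≤ r₀ → ‖G (z + h) - G z - h * p‖ ≤ ε * |h| ∧
      ‖G (z + h * Complex.I) - G z - h * q‖ ≤ ε * |h|) →
    Dense E 1 z₀ δ → Dense E Complex.I z₀ δ →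
    ∀ᶠ z in 𝓝 z₀, ‖G z - G z₀ - (z - z₀).re * p - (z - z₀).im * q‖ ≤ 20 * ε * ‖z - z₀‖

/-- PIECE GL (100 lines, from S_GLA, S_DEN): the theorem of Gehring and Lehto.  Proof: for `k, n` and `p, q` in a
countable dense subset of `ℂ` the set `E` of the `z` with
`‖G (z + h) - G z - h p‖ ≤ |h| / (k + 1)` and `‖G (z + h i) - G z - h q‖ ≤ |h| / (k + 1)` for all real `|h| ≤ 1 / (n + 1)`
is closed.  For almost all `z₀` all the countably many density properties (`δ = 1 / (j + 4)`) hold.  If moreover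
`z₀ ∈ R` has the line derivatives `P`, `Q` then for each `k` choose `p, q` within `1 / (2 (k + 1))` of `P, Q`, then
`n` large with `z₀ ∈ E`, `δ` small, and apply GLA: `G` is differentiable at `z₀` with derivative
`x + i y ↦ x P + y Q`. -/
def S_GL : Prop :=
  ∀ (G : ℂ → ℂ) (R : Set ℂ), Continuous G → IsOpen R → (∀ V ⊆ R, IsOpen V → IsOpen (G '' V)) →
    (∀ᵐ z : ℂ, z ∈ R → LineDifferentiableAt ℝ G z 1 ∧ LineDifferentiableAt ℝ G z Complex.I) →
    ∀ᵐ z : ℂ, z ∈ R → DifferentiableAt ℝ G z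

/-- PIECE FUB (80 lines, from S_LINE): the local statement without the differentiability theorem.  Near a point `w`
of `e.target` the coordinate expression of `f`, composed with the projection to a small square, is continuous on
`ℂ`, open on a neighbourhood `R` of `w` and has line derivatives almost everywhere in `R`.
Proof: `e'` with `f (e.symm w) ∈ e'.source`; `ρ` with `closedBall w (40 ρ) ⊆ e.target` and
`f (e.symm z) ∈ e'.source` for `z ∈ closedBall w (2 ρ)`; `G z = e' (f (e.symm (w + clamp (z - w))))` where `clamp`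
cuts real and imaginary part to `[-ρ, ρ]`; `R = ball w ρ`.  Line derivatives:
`ae_mem_of_ae_add_linearMap_mem` with `measurableSet_lineDifferentiableAt`, and on each line that meets `R` at `P`
apply S_LINE with this `P` and `v = 8 ρ` or `8 ρ i`. -/
def S_FUB : Prop :=
  ∀ (S : Type) [TopologicalSpace S] [T2Space S] [ChartedSpace ℂ S] [IsManifold 𝓘(ℝ, ℂ) ∞ S]
    (f : S ≃ₜ S), Homeo1 f → ∀ e e' : OpenPartialHomeomorph S ℂ,
    e ∈ IsManifold.maximalAtlas 𝓘(ℝ, ℂ) ∞ S → e' ∈ IsManifold.maximalAtlas 𝓘(ℝ, ℂ) ∞ S →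
    ∀ w ∈ e.target, f (e.symm w) ∈ e'.source → ∃ (R : Set ℂ) (G : ℂ → ℂ), IsOpen R ∧ w ∈ R ∧
      Continuous G ∧ (∀ z ∈ R, z ∈ e.target ∧ f (e.symm z) ∈ e'.source ∧ G z = e' (f (e.symm z))) ∧
      (∀ V ⊆ R, IsOpen V → IsOpen (G '' V)) ∧
      (∀ᵐ z : ℂ, z ∈ R → LineDifferentiableAt ℝ G z 1 ∧ LineDifferentiableAt ℝ G z Complex.I)

/-- PIECE ASM (60 lines, from S_GL, S_FUB): the theorem.  Proof: by `measure_null_of_locally_null` it is enough to
show that `R ∩ e '' (..)` is null, for `R`, `G` from FUB at the point (with `e' = chartAt ℂ (f p)`).  If `G` is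
differentiable at `z ∈ R` then `f` is differentiable at `e.symm z`, as `f = e'.symm ∘ G ∘ e` near this point. -/
def S_ASM : Prop :=
  ∀ (S : Type) [TopologicalSpace S] [T2Space S] [ChartedSpace ℂ S] [IsManifold 𝓘(ℝ, ℂ) ∞ S]
    (f : S ≃ₜ S), Homeo1 f → ∀ e : OpenPartialHomeomorph S ℂ,
    e ∈ IsManifold.maximalAtlas 𝓘(ℝ, ℂ) ∞ S →
    volume (e '' (e.source ∩ nonDiff f)) = 0

end Run7.h141.ND1
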