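import Mathlib
import Pool.Agent.Run7.h141.ND1.Iface

namespace Run7.h44.ND1

open Set Filter Topology MeasureTheory Run7.h141.ND1

/-- an open set around `a` contains points farther from `A` than `a`. -/
theorem farther (O : Set ℂ) (hO : IsOpen O) (a A : ℂ) (ha : a ∈ O) : ∃ b ∈ O, ‖a - A‖ < ‖b - A‖ := by
  obtain ⟨s, hs, hsub⟩ := Metric.isOpen_iff.1 hO a ha
  by_cases h : a = A
  · refine ⟨a + ((s / 2 : ℝ) : ℂ), hsub ?_, ?_⟩
    · rw [Metric.mem_ball, dist_eq_norm, add_sub_cancel_left, Complex.norm_real, Real.norm_eq_abs,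
        abs_of_pos (by linarith)]
      linarith
    · rw [h, sub_self, norm_zero, add_sub_cancel_left, Complex.norm_real, Real.norm_eq_abs,
        abs_of_pos (by linarith)]
      linarith
  · have hn : 0 < ‖a - A‖ := norm_pos_iff.2 (sub_ne_zero.2 h)
    set t : ℝ := s / (2 * ‖a - A‖) with ht
    have htp : 0 < t := by positivity
    refine ⟨a + (t : ℂ) * (a - A), hsub ?_, ?_⟩
    · rw [Metric.mem_ball, dist_eq_norm, add_sub_cancel_left, norm_mul, Complex.norm_real,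
        Real.norm_eq_abs, abs_of_pos htp, ht]
      have : s / (2 * ‖a - A‖) * ‖a - A‖ = s / 2 := by field_simp
      rw [this]; linarith
    · have : a + (t : ℂ) * (a - A) - A = ((1 + t : ℝ) : ℂ) * (a - A) := by push_cast; ring
      rw [this, norm_mul, Complex.norm_real, Real.norm_eq_abs, abs_of_pos (by linarith)]
      nlinarith

theorem re_mul_I (x y : ℝ) (z₀ : ℂ) (w : ℂ) (hx : (w - z₀).re = x) (hy : (w - z₀).im = y) :
    w = z₀ + x + y * Complex.I := by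
  have : w - z₀ = (x : ℂ) + y * Complex.I := by
    rw [← hx, ← hy]; exact (Complex.re_add_im _).symm
  rw [add_assoc, ← this]; ring

/-- maximum principle on the rectangle -/
theorem rect_max (G : ℂ → ℂ) (R : Set ℂ) (z₀ A : ℂ) (hG : Continuous G)
    (hop : ∀ V ⊆ R, IsOpen V → IsOpen (G '' V)) (x₁ x₂ y₁ y₂ M : ℝ)
    (hR : ∀ w : ℂ, (w - z₀).re ∈ Icc x₁ x₂ → (w - z₀).im ∈ Icc y₁ y₂ → w ∈ R)
    (hb : ∀ w : ℂ, (w - z₀).re ∈ Icc x₁ x₂ → (w - z₀).im ∈ Icc y₁ y₂ →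
      ((w - z₀).re = x₁ ∨ (w - z₀).re = x₂ ∨ (w - z₀).im = y₁ ∨ (w - z₀).im = y₂) → ‖G w - A‖ ≤ M)
    (z : ℂ) (hzx : (z - z₀).re ∈ Icc x₁ x₂) (hzy : (z - z₀).im ∈ Icc y₁ y₂) : ‖G z - A‖ ≤ M := by
  have hK : IsCompact ((fun w : ℂ => z₀ + w) '' (Icc x₁ x₂ ×ℂ Icc y₁ y₂)) := by
    refine IsCompact.image ?_ (by fun_prop)
    exact (isCompact_Icc).reProdIm isCompact_Icc
  have hmem : ∀ w : ℂ, w ∈ ((fun w : ℂ => z₀ + w) '' (Icc x₁ x₂ ×ℂ Icc y₁ y₂)) ↔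
      ((w - z₀).re ∈ Icc x₁ x₂ ∧ (w - z₀).im ∈ Icc y₁ y₂) := by
    intro w
    constructor
    · rintro ⟨u, hu, rfl⟩
      simp only [add_sub_cancel_left]
      exact Complex.mem_reProdIm.1 hu
    · intro h
      exact ⟨w - z₀, Complex.mem_reProdIm.2 h, by ring⟩
  obtain ⟨w, hw, hmax⟩ := hK.exists_isMaxOn ⟨z, (hmem z).2 ⟨hzx, hzy⟩⟩
    (f := fun w => ‖G w - A‖) (by fun_prop)
  have hzw : ‖G z - A‖ ≤ ‖G w - A‖ := hmax ((hmem z).2 ⟨hzx, hzy⟩)
  refine hzw.trans ?_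
  obtain ⟨hwx, hwy⟩ := (hmem w).1 hw
  by_cases hbd : (w - z₀).re = x₁ ∨ (w - z₀).re = x₂ ∨ (w - z₀).im = y₁ ∨ (w - z₀).im = y₂
  · exact hb w hwx hwy hbd
  · exfalso
    push Not at hbd
    obtain ⟨h1, h2, h3, h4⟩ := hbd
    set U : Set ℂ := {u | (u - z₀).re ∈ Ioo x₁ x₂ ∧ (u - z₀).im ∈ Ioo y₁ y₂} with hU
    have hUo : IsOpen U := by
      have e1 : IsOpen {u : ℂ | (u - z₀).re ∈ Ioo x₁ x₂} :=
        isOpen_Ioo.preimage (Complex.continuous_re.comp (continuous_id.sub continuous_const))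
      have e2 : IsOpen {u : ℂ | (u - z₀).im ∈ Ioo y₁ y₂} :=
        isOpen_Ioo.preimage (Complex.continuous_im.comp (continuous_id.sub continuous_const))
      exact e1.inter e2
    have hwU : w ∈ U := ⟨⟨lt_of_le_of_ne hwx.1 (Ne.symm h1), lt_of_le_of_ne hwx.2 h2⟩,
      ⟨lt_of_le_of_ne hwy.1 (Ne.symm h3), lt_of_le_of_ne hwy.2 h4⟩⟩
    have hUR : U ⊆ R := fun u hu => hR u ⟨hu.1.1.le, hu.1.2.le⟩ ⟨hu.2.1.le, hu.2.2.le⟩
    obtain ⟨b, ⟨u, hu, rfl⟩, hub⟩ := farther (G '' U) (hop U hUR hUo) (G w) A ⟨w, hwU, rfl⟩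
    have : ‖G u - A‖ ≤ ‖G w - A‖ :=
      hmax ((hmem u).2 ⟨⟨hu.1.1.le, hu.1.2.le⟩, ⟨hu.2.1.le, hu.2.2.le⟩⟩)
    linarith

theorem t_GLA : S_GLA := by
  intro G R E z₀ p q ε r₀ δ hG hR hop hzR hzE hε hr₀ hδ hδ4 hδpq hE hD1 hD2
  obtain ⟨ρ₁, hρ₁, hD1⟩ := hD1
  obtain ⟨ρ₂, hρ₂, hD2⟩ := hD2
  obtain ⟨s, hs, hsR⟩ := Metric.isOpen_iff.1 hR z₀ hzR
  have hball : Metric.ball z₀ (min (min ρ₁ ρ₂) (min (s / 4) (r₀ / 4))) ∈ 𝓝 z₀ :=
    Metric.ball_mem_nhds _ (by positivity)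
  filter_upwards [hball] with z hz
  rw [Metric.mem_ball, dist_eq_norm] at hz
  set r := ‖z - z₀‖ with hr
  have hr1 : r < ρ₁ := lt_of_lt_of_le hz ((min_le_left _ _).trans (min_le_left _ _))
  have hr2 : r < ρ₂ := lt_of_lt_of_le hz ((min_le_left _ _).trans (min_le_right _ _))
  have hr3 : r < s / 4 := lt_of_lt_of_le hz ((min_le_right _ _).trans (min_le_left _ _))
  have hr4 : r < r₀ / 4 := lt_of_lt_of_le hz ((min_le_right _ _).trans (min_le_right _ _))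
  rcases (norm_nonneg (z - z₀)).eq_or_lt with h0 | h0
  · have hzz : z - z₀ = 0 := norm_eq_zero.1 h0.symm
    have : z = z₀ := sub_eq_zero.1 hzz
    rw [hr, hzz, this]; simp
  rw [← hr] at h0
  set x := (z - z₀).re with hx
  set y := (z - z₀).im with hy
  have hxr : |x| ≤ r := Complex.abs_re_le_norm _
  have hyr : |y| ≤ r := Complex.abs_im_le_norm _
  have hδr : 0 < δ * r := by positivity
  have hδr4 : δ * r ≤ r / 4 := by nlinarith
  obtain ⟨hx1, hx2⟩ := abs_le.1 hxr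
  obtain ⟨hy1, hy2⟩ := abs_le.1 hyr
  obtain ⟨x₁, hx₁, hx₁E⟩ := hD1 r h0 hr1 (x - 2 * (δ * r)) (abs_le.2 ⟨by linarith, by linarith⟩)
  obtain ⟨x₂, hx₂, hx₂E⟩ := hD1 r h0 hr1 (x + 2 * (δ * r)) (abs_le.2 ⟨by linarith, by linarith⟩)
  obtain ⟨y₁, hy₁, hy₁E⟩ := hD2 r h0 hr2 (y - 2 * (δ * r)) (abs_le.2 ⟨by linarith, by linarith⟩)
  obtain ⟨y₂, hy₂, hy₂E⟩ := hD2 r h0 hr2 (y + 2 * (δ * r)) (abs_le.2 ⟨by linarith, by linarith⟩)
  obtain ⟨hx₁a, hx₁b⟩ := abs_le.1 hx₁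
  obtain ⟨hx₂a, hx₂b⟩ := abs_le.1 hx₂
  obtain ⟨hy₁a, hy₁b⟩ := abs_le.1 hy₁
  obtain ⟨hy₂a, hy₂b⟩ := abs_le.1 hy₂
  rw [mul_one] at hx₁E hx₂E
  set A : ℂ := G z₀ + x * p + y * q with hA
  have key : ‖G z - A‖ ≤ 20 * ε * r := by
    refine rect_max G R z₀ A hG hop x₁ x₂ y₁ y₂ (20 * ε * r) ?_ ?_ z
      ⟨by linarith, by linarith⟩ ⟨by linarith, by linarith⟩
    · intro w hwx hwy
      apply hsR
      rw [Metric.mem_ball, dist_eq_norm]
      have h1 := Complex.norm_le_abs_re_add_abs_im (w - z₀)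
      have h2 : |(w - z₀).re| ≤ 7 / 4 * r := abs_le.2 ⟨by linarith [hwx.1], by linarith [hwx.2]⟩
      have h3 : |(w - z₀).im| ≤ 7 / 4 * r := abs_le.2 ⟨by linarith [hwy.1], by linarith [hwy.2]⟩
      linarith
    · intro w hwx hwy hbd
      set ξ := (w - z₀).re with hξ
      set η := (w - z₀).im with hη
      have hw : w = z₀ + ξ + η * Complex.I := re_mul_I ξ η z₀ w rfl rfl
      have hξr : |ξ| ≤ 7 / 4 * r := abs_le.2 ⟨by linarith [hwx.1], by linarith [hwx.2]⟩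
      have hηr : |η| ≤ 7 / 4 * r := abs_le.2 ⟨by linarith [hwy.1], by linarith [hwy.2]⟩
      have hξ0 : |ξ| ≤ r₀ := by linarith
      have hη0 : |η| ≤ r₀ := by linarith
      have hξx : |ξ - x| ≤ 3 * (δ * r) := abs_le.2 ⟨by linarith [hwx.1], by linarith [hwx.2]⟩
      have hηy : |η - y| ≤ 3 * (δ * r) := abs_le.2 ⟨by linarith [hwy.1], by linarith [hwy.2]⟩
      have hmain : ‖G w - G z₀ - ξ * p - η * q‖ ≤ ε * |ξ| + ε * |η| := by
        have hvert : (z₀ + ξ ∈ E) → ‖G w - G z₀ - ξ * p - η * q‖ ≤ ε * |ξ| + ε * |η| := by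
          intro h
          have e1 := (hE z₀ hzE ξ hξ0).1
          have e2 := (hE (z₀ + ξ) h η hη0).2
          have : G w - G z₀ - ξ * p - η * q = (G (z₀ + ξ) - G z₀ - ξ * p) +
              (G (z₀ + ξ + η * Complex.I) - G (z₀ + ξ) - η * q) := by rw [hw]; ring
          rw [this]
          exact (norm_add_le _ _).trans (add_le_add e1 e2)
        have hhor : (z₀ + η * Complex.I ∈ E) → ‖G w - G z₀ - ξ * p - η * q‖ ≤ ε * |ξ| + ε * |η| := by
          intro h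
          have e1 := (hE z₀ hzE η hη0).2
          have e2 := (hE (z₀ + η * Complex.I) h ξ hξ0).1
          have hw' : w = z₀ + η * Complex.I + ξ := by rw [hw]; ring
          have : G w - G z₀ - ξ * p - η * q = (G (z₀ + η * Complex.I + ξ) - G (z₀ + η * Complex.I) - ξ * p) +
              (G (z₀ + η * Complex.I) - G z₀ - η * q) := by rw [hw']; ring
          rw [this]
          exact (norm_add_le _ _).trans (add_le_add e2 e1)
        rcases hbd with h | h | h | h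
        · exact hvert (by rw [h]; exact hx₁E)
        · exact hvert (by rw [h]; exact hx₂E)
        · exact hhor (by rw [h]; exact hy₁E)
        · exact hhor (by rw [h]; exact hy₂E)
      have hdiff : G w - A = (G w - G z₀ - ξ * p - η * q) + (((ξ - x : ℝ) : ℂ) * p + ((η - y : ℝ) : ℂ) * q) := by
        rw [hA]; push_cast; ring
      rw [hdiff]
      have h1 : ‖((ξ - x : ℝ) : ℂ) * p‖ ≤ 3 * (δ * r) * ‖p‖ := by
        rw [norm_mul, Complex.norm_real, Real.norm_eq_abs]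
        exact mul_le_mul_of_nonneg_right hξx (norm_nonneg _)
      have h2 : ‖((η - y : ℝ) : ℂ) * q‖ ≤ 3 * (δ * r) * ‖q‖ := by
        rw [norm_mul, Complex.norm_real, Real.norm_eq_abs]
        exact mul_le_mul_of_nonneg_right hηy (norm_nonneg _)
      have h3 : 3 * (δ * r) * ‖p‖ + 3 * (δ * r) * ‖q‖ ≤ 3 * ε * r := by
        have : 3 * (δ * r) * ‖p‖ + 3 * (δ * r) * ‖q‖ = 3 * r * (δ * (‖p‖ + ‖q‖)) := by ring
        rw [this]
        nlinarith
      have h4 : ε * |ξ| ≤ ε * (7 / 4 * r) := mul_le_mul_of_nonneg_left hξr hε.le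
      have h5 : ε * |η| ≤ ε * (7 / 4 * r) := mul_le_mul_of_nonneg_left hηr hε.le
      calc _ ≤ ‖G w - G z₀ - ξ * p - η * q‖ + ‖((ξ - x : ℝ) : ℂ) * p + ((η - y : ℝ) : ℂ) * q‖ :=
            norm_add_le _ _
        _ ≤ (ε * |ξ| + ε * |η|) + (‖((ξ - x : ℝ) : ℂ) * p‖ + ‖((η - y : ℝ) : ℂ) * q‖) :=
            add_le_add hmain (norm_add_le _ _)
        _ ≤ 20 * ε * r := by
            have h6 := mul_pos hε h0
            have h7 : ε * (7 / 4 * r) = 7 / 4 * (ε * r) := by ring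
            have h8 : 3 * ε * r = 3 * (ε * r) := by ring
            have h9 : 20 * ε * r = 20 * (ε * r) := by ring
            rw [h7] at h4 h5
            rw [h8] at h3
            rw [h9]
            linarith
  have : G z - G z₀ - x * p - y * q = G z - A := by rw [hA]; ring
  rw [this]
  exact key

end Run7.h44.ND1
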