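import Pool.Agent.Run7.h141.ND1.Iface

namespace Run7.h141.ND1

open Set Filter Topology MeasureTheory R789.C1
open scoped Manifold ContDiff

theorem t_LINE (hCUR : S_CUR) (hTRA : S_TRA) (hMON : S_MON) : S_LINE := by
  intro S _ _ _ _ f hf e e' he he' P v hv hball
  obtain ⟨c1, c2, c3, c4, c5, c6⟩ := hCUR P v hv
  have hsub : range (cur P v) ⊆ e.target := by
    rintro _ ⟨t, rfl⟩
    apply hball
    rw [Metric.mem_closedBall, dist_eq_norm]
    exact c5 t
  obtain ⟨γ, g1, g2, g3, g4, g5⟩ := hf.1 _ (hTRA S e he (cur P v) c1 c2 c3 c4 hsub)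
  have hγc : Continuous γ := g1.continuous
  -- the map of the segment
  have hseg : ∀ x : ℝ, x ∈ Ioo (-(1 / 2) : ℝ) (1 / 2) → P + x * v ∈ range (cur P v) := by
    intro x hx
    exact c6 x (abs_le.mpr ⟨hx.1.le, hx.2.le⟩)
  have hcc : ContinuousOn (fun x : ℝ => f (e.symm (P + x * v))) (Ioo (-(1 / 2) : ℝ) (1 / 2)) := by
    refine f.continuous.comp_continuousOn (e.continuousOn_symm.comp ?_ ?_)
    · fun_prop
    · intro x hx
      exact hsub (hseg x hx)
  have hci : InjOn (fun x : ℝ => f (e.symm (P + x * v))) (Ioo (-(1 / 2) : ℝ) (1 / 2)) := by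
    intro x hx y hy hxy
    have h1 : e.symm (P + x * v) = e.symm (P + y * v) := f.injective hxy
    have h2 : P + (x : ℂ) * v = P + y * v :=
      e.symm.injOn (hsub (hseg x hx)) (hsub (hseg y hy)) h1
    have h3 : (x : ℂ) = y := mul_right_cancel₀ hv (add_left_cancel h2)
    exact_mod_cast h3
  have hcr : ∀ x ∈ Ioo (-(1 / 2) : ℝ) (1 / 2), (fun x : ℝ => f (e.symm (P + x * v))) x ∈ range γ := by
    intro x hx
    rw [← g5]
    exact ⟨_, ⟨_, hseg x hx, rfl⟩, rfl⟩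
  -- the bad set
  have hbad : volume {x : ℝ | x ∈ Ioo (-(1 / 2) : ℝ) (1 / 2) ∧ f (e.symm (P + x * v)) ∈ e'.source ∧
      ¬ DifferentiableAt ℝ (fun y : ℝ => e' (f (e.symm (P + y * v)))) x} = 0 := by
    refine measure_null_of_locally_null _ fun x₀ hx₀ => ?_
    obtain ⟨δ, hδ, s, hs, hsc, hcs⟩ := hMON S γ (fun x : ℝ => f (e.symm (P + x * v)))
      (-(1 / 2)) (1 / 2) hγc g3 g4 hcc hci hcr x₀ hx₀.1
    have hae : ∀ᵐ x : ℝ, x ∈ Ioo (x₀ - δ) (x₀ + δ) → DifferentiableWithinAt ℝ s (Ioo (x₀ - δ) (x₀ + δ)) x := by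
      rcases hs with h | h
      · exact h.ae_differentiableWithinAt_of_mem
      · have h' : MonotoneOn (fun x => - s x) (Ioo (x₀ - δ) (x₀ + δ)) := h.neg
        filter_upwards [h'.ae_differentiableWithinAt_of_mem] with x hx hmem
        have := (hx hmem).neg
        simpa using this
    refine ⟨_, inter_mem self_mem_nhdsWithin
      (mem_nhdsWithin_of_mem_nhds (Ioo_mem_nhds (by linarith : x₀ - δ < x₀) (by linarith : x₀ < x₀ + δ))), ?_⟩
    refine measure_mono_null ?_ hae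
    rintro x ⟨⟨hx1, hx2, hx3⟩, hx4⟩
    simp only [mem_compl_iff, mem_ofPred_eq]
    intro hdiff
    apply hx3
    have hsd : DifferentiableAt ℝ s x := (hdiff hx4).differentiableAt (Ioo_mem_nhds hx4.1 hx4.2)
    have hsx : γ (s x) ∈ e'.source := by
      rw [← hcs x hx4]
      exact hx2
    have m1 : MDifferentiableAt 𝓘(ℝ, ℝ) 𝓘(ℝ, ℂ) γ (s x) :=
      (g1 (s x)).mdifferentiableAt (by simp)
    have m2 : MDifferentiableAt 𝓘(ℝ, ℂ) 𝓘(ℝ, ℂ) e' (γ (s x)) :=
      (contMDiffAt_of_mem_maximalAtlas he' hsx).mdifferentiableAt (by simp)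
    have m3 : MDifferentiableAt 𝓘(ℝ, ℝ) 𝓘(ℝ, ℂ) (e' ∘ γ) (s x) := MDifferentiableAt.comp (s x) m2 m1
    have m4 : DifferentiableAt ℝ (e' ∘ γ) (s x) := mdifferentiableAt_iff_differentiableAt.1 m3
    have m5 : DifferentiableAt ℝ ((e' ∘ γ) ∘ s) x := m4.comp x hsd
    refine m5.congr_of_eventuallyEq ?_
    filter_upwards [Ioo_mem_nhds hx4.1 hx4.2] with y hy
    simp only [Function.comp_apply]
    rw [← hcs y hy]
  filter_upwards [compl_mem_ae_iff.mpr hbad] with x hx h1 h2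
  by_contra h3
  exact hx ⟨⟨(abs_lt.mp h1).1, (abs_lt.mp h1).2⟩, h2, h3⟩

end Run7.h141.ND1
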