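import Pool.Agent.Run7.h141.ND1.Iface

/-!
# Piece TRA of project ND1 (helper141): curves in a chart are curves of the surface
-/

set_option autoImplicit false

namespace Run7.h382.ND1

open Set Filter Topology MeasureTheory R789.C1 Run7.h141.ND1
open scoped Manifold ContDiff

theorem t_TRA : S_TRA := by
  intro S _ _ _ e he γ hγ hd hp hi hr
  have hmem : ∀ t, γ t ∈ e.target := fun t => hr ⟨t, rfl⟩
  have hsm : ContMDiff 𝓘(ℝ, ℝ) 𝓘(ℝ, ℂ) 1 (e.symm ∘ γ) := by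
    have h1 : ContMDiffOn 𝓘(ℝ, ℂ) 𝓘(ℝ, ℂ) ∞ e.symm e.target :=
      contMDiffOn_symm_of_mem_maximalAtlas he
    intro t
    have h3 := (h1 (γ t) (hmem t)).contMDiffAt (e.open_target.mem_nhds (hmem t))
    exact (h3.of_le (by simp)).comp t (hγ.contMDiff t)
  refine ⟨e.symm ∘ γ, hsm, fun t h0 => ?_, fun t => ?_, ?_, (range_comp _ _).symm⟩
  · have h4 : MDifferentiableAt 𝓘(ℝ, ℝ) 𝓘(ℝ, ℂ) (e.symm ∘ γ) t :=
      (hsm t).mdifferentiableAt (by norm_num)
    have h5 : MDifferentiableAt 𝓘(ℝ, ℂ) 𝓘(ℝ, ℂ) e ((e.symm ∘ γ) t) :=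
      (contMDiffAt_of_mem_maximalAtlas he (e.map_target (hmem t))).mdifferentiableAt (by simp)
    have h6 : e ∘ (e.symm ∘ γ) = γ := funext fun t => e.right_inv (hmem t)
    have h7 := mfderiv_comp t h5 h4
    rw [h0, h6] at h7
    have h8 : mfderiv 𝓘(ℝ, ℝ) 𝓘(ℝ, ℂ) γ t = 0 := by
      rw [h7]
      exact ContinuousLinearMap.comp_zero _
    rw [mfderiv_eq_fderiv] at h8
    have h9 : fderiv ℝ γ t = 0 := h8
    apply hd t
    show fderiv ℝ γ t 1 = 0
    rw [h9]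
    rfl
  · show e.symm (γ (t + 1)) = e.symm (γ t)
    rw [hp]
  · intro s hs t ht hst
    exact hi hs ht (e.symm.injOn (hmem s) (hmem t) hst)

end Run7.h382.ND1
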