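import Pool.Agent.Run7.h141.ND1.Iface
import Pool.Agent.Run7.h141.ND1.CUR
import Pool.Agent.Run7.h141.ND1.TRA
import Pool.Agent.Run7.h141.ND1.MON
import Pool.Agent.Run7.h141.ND1.LINE
import Pool.Agent.Run7.h141.ND1.DEN
import Pool.Agent.Run7.h141.ND1.GLA
import Pool.Agent.Run7.h141.ND1.GL
import Pool.Agent.Run7.h141.ND1.FUB
import Pool.Agent.Run7.h141.ND1.ASM

/-!
Assembly of project ND1 (MP_bd3523_gt, Q2).  Pieces: CUR helper774, TRA helper382, MON helper56 or helper136,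
DEN helper824, GLA helper44, GL helper136, FUB helper648, LINE and ASM helper141.
-/

namespace Run7.h141.ND1

theorem main : S_ASM :=
  t_ASM (Run7.h136.ND1.t_GL Run7.h44.ND1.t_GLA Run7.h824.ND1.t_DEN)
    (Run7.h648.ND1.t_FUB (t_LINE Run7.h774.ND1.t_CUR Run7.h382.ND1.t_TRA Run7.h136.ND1.t_MON))

end Run7.h141.ND1
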